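import Mathlib
import Pool.Agent.Y661.HE.Stm2

/-!
# HE-PAR: choice of the parameters
-/

set_option autoImplicit false

namespace Pool.Agent.Y220.HE.PAR

open Pool.Agent.Y661.HE

theorem main : S_PAR := by
  intro d q hd hq hq1 hy
  have hd' : (10 : ℝ) ≤ d := by exact_mod_cast hd
  have hL0 : 1 / 2 < Real.log (2 / q) := by
    have h1 : Real.log 2 ≤ Real.log (2 / q) :=
      Real.log_le_log (by norm_num) (by rw [le_div_iff₀ hq]; linarith)
    linarith [Real.log_two_gt_d9]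
  generalize hLdef : Real.log (2 / q) = L at hL0 hy ⊢
  obtain ⟨y, hydef⟩ : ∃ y : ℝ, y = q * d * L := ⟨_, rfl⟩
  have hy0 : 0 < y := by rw [hydef]; positivity
  have hy1 : y < 1 / 60 := by
    have : 60 * q * d * L = 60 * y := by rw [hydef]; ring
    linarith
  have h18 : (0 : ℝ) < 18 * y := by positivity
  obtain ⟨m, hm⟩ : ∃ m : ℕ, m = ⌊1 / (18 * y)⌋₊ := ⟨_, rfl⟩
  have hm_le : (m : ℝ) ≤ 1 / (18 * y) := by rw [hm]; exact Nat.floor_le (by positivity)
  have hm_lt : 1 / (18 * y) < m + 1 := by rw [hm]; exact Nat.lt_floor_add_one _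
  have hm1 : 1 ≤ m := by
    rw [hm]
    refine Nat.le_floor ?_
    rw [Nat.cast_one, le_div_iff₀ h18]
    linarith
  have hm1' : (1 : ℝ) ≤ m := by exact_mod_cast hm1
  obtain ⟨b, hb⟩ : ∃ b : ℝ, b = 12 * (d : ℝ) + 4 := ⟨_, rfl⟩
  have hb0 : 124 ≤ b := by rw [hb]; linarith
  obtain ⟨u, hu⟩ : ∃ u : ℝ, u = 2 * (m : ℝ) + 1 := ⟨_, rfl⟩
  have hu3 : 3 ≤ u := by rw [hu]; linarith
  have hu0 : 0 < u := by linarith
  have hlu : 0 < Real.log u := Real.log_pos (by linarith)
  obtain ⟨A, hA⟩ : ∃ A : ℝ, A = 9 * b * m / 4 * (d * Real.log u) := ⟨_, rfl⟩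
  have hA0 : 0 ≤ A := by rw [hA]; positivity
  obtain ⟨n, hn⟩ : ∃ n : ℕ, n = ⌈A⌉₊ := ⟨_, rfl⟩
  have hnA : A ≤ n := by rw [hn]; exact Nat.le_ceil _
  have hnA' : (n : ℝ) < A + 1 := by rw [hn]; exact Nat.ceil_lt_add_one hA0
  -- the size of m
  have hmy : (m : ℝ) * (18 * y) ≤ 1 := by rwa [le_div_iff₀ h18] at hm_le
  have hmL : (m : ℝ) * d * L ≤ 1 / (18 * q) := by
    rw [le_div_iff₀ (by positivity)]
    have : (m : ℝ) * d * L * (18 * q) = m * (18 * y) := by rw [hydef]; ring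
    linarith
  have hluL : Real.log u ≤ L := by
    rw [← hLdef]
    apply Real.log_le_log hu0
    rw [le_div_iff₀ hq]
    have h1 : u ≤ 3 * m := by rw [hu]; linarith
    have h2 : u * q ≤ 3 * m * q := by gcongr
    have h3 : (m : ℝ) * q * 90 ≤ m * (18 * y) := by
      have : q * 90 ≤ 18 * y := by
        rw [hydef]
        have h4 : 5 ≤ (d : ℝ) * L := by nlinarith
        nlinarith
      have := mul_le_mul_of_nonneg_left this (by positivity : (0 : ℝ) ≤ m)
      linarith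
    nlinarith
  have hAle : A ≤ b / (8 * q) := by
    have h1 : (m : ℝ) * (d * Real.log u) ≤ m * d * L := by
      have := mul_le_mul_of_nonneg_left hluL (by positivity : (0 : ℝ) ≤ m * d)
      linarith
    calc A = 9 * b / 4 * (m * (d * Real.log u)) := by rw [hA]; ring
      _ ≤ 9 * b / 4 * (1 / (18 * q)) := by
        apply mul_le_mul_of_nonneg_left _ (by positivity)
        linarith
      _ = b / (8 * q) := by
        field_simp
        ring
  refine ⟨m, n, hm1, ?_, ?_, ?_⟩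
  · have h1 : b / (8 * q) + 1 ≤ 3 * d / q := by
      rw [div_add' _ _ _ (by positivity), div_le_div_iff₀ (by positivity) hq, hb]
      nlinarith [mul_pos hq hq]
    linarith
  · rw [← hb, ← hu]
    -- the two terms
    obtain ⟨t, ht⟩ : ∃ t : ℝ, t = 2 / (9 * b * m) := ⟨_, rfl⟩
    have ht0 : 0 < t := by rw [ht]; positivity
    have ht1 : t ≤ 1 := by
      rw [ht, div_le_one (by positivity)]
      nlinarith
    have h1 : (1 - t) ^ n ≤ u ^ (-((d : ℝ) / 2)) := by
      have h2 : (1 - t) ^ n ≤ Real.exp (-t) ^ n :=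
        pow_le_pow_left₀ (by linarith) (Real.one_sub_le_exp_neg t) n
      refine h2.trans ?_
      rw [← Real.exp_nat_mul, Real.rpow_def_of_pos hu0]
      apply Real.exp_le_exp.2
      have h3 : t * A = (d : ℝ) / 2 * Real.log u := by
        rw [ht, hA]
        field_simp
        ring
      have h4 : t * A ≤ t * n := mul_le_mul_of_nonneg_left hnA ht0.le
      linarith
    have h2 : ((Real.sqrt u)⁻¹) ^ d = u ^ (-((d : ℝ) / 2)) := by
      rw [Real.sqrt_eq_rpow, ← Real.rpow_neg hu0.le, ← Real.rpow_natCast, ← Real.rpow_mul hu0.le]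
      congr 1
      ring
    have h3 : u ^ (-((d : ℝ) / 2)) ≤ (18 * y) ^ ((d : ℝ) / 2) := by
      rw [Real.rpow_neg hu0.le, ← Real.inv_rpow hu0.le]
      apply Real.rpow_le_rpow (by positivity) _ (by positivity)
      rw [inv_le_comm₀ hu0 h18]
      have : (18 * y)⁻¹ = 1 / (18 * y) := (one_div _).symm
      rw [this, hu]
      linarith
    have h4 : (18 * y) ^ ((d : ℝ) / 2) = (60 * y) ^ ((d : ℝ) / 2) * (3 / 10 : ℝ) ^ ((d : ℝ) / 2) := by
      rw [← Real.mul_rpow (by positivity) (by norm_num)]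
      congr 1
      ring
    have h5 : (3 / 10 : ℝ) ^ ((d : ℝ) / 2) ≤ 243 / 100000 := by
      have h6 : (3 / 10 : ℝ) ^ ((d : ℝ) / 2) ≤ (3 / 10 : ℝ) ^ (5 : ℝ) :=
        Real.rpow_le_rpow_of_exponent_ge (by norm_num) (by norm_num) (by linarith)
      have h7 : (3 / 10 : ℝ) ^ (5 : ℝ) = (3 / 10 : ℝ) ^ (5 : ℕ) := by
        rw [← Real.rpow_natCast]
        norm_num
      rw [h7] at h6
      norm_num at h6 ⊢
      exact h6
    have h6 : 60 * q * d * L = 60 * y := by rw [hydef]; ring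
    have h7 : 0 ≤ (60 * y) ^ ((d : ℝ) / 2) := by positivity
    rw [h6, h2, ← ht]
    rw [h4] at h3
    have h8 : (60 * y) ^ ((d : ℝ) / 2) * (3 / 10 : ℝ) ^ ((d : ℝ) / 2) ≤
        (60 * y) ^ ((d : ℝ) / 2) * (243 / 100000) := mul_le_mul_of_nonneg_left h5 h7
    linarith
  · rw [← hb]
    have h1 : (-2 : ℝ) ≤ -(2 * q / b) := by
      have : 2 * q / b ≤ 2 := by
        rw [div_le_iff₀ (by linarith)]
        linarith
      linarith
    have h2 := one_add_mul_le_pow h1 n
    have h3 : (n : ℝ) * (2 * q / b) ≤ 1 / 2 := by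
      have h4 : (n : ℝ) ≤ b / (8 * q) + 1 := by linarith
      have h5 : (n : ℝ) * (2 * q / b) ≤ (b / (8 * q) + 1) * (2 * q / b) := by gcongr
      have h6 : (b / (8 * q) + 1) * (2 * q / b) = 1 / 4 + 2 * q / b := by
        have : b ≠ 0 := by linarith
        field_simp
        ring
      have h7 : 2 * q / b ≤ 1 / 4 := by
        rw [div_le_iff₀ (by linarith)]
        linarith
      linarith
    have h8 : 1 + (n : ℝ) * (-(2 * q / b)) = 1 - n * (2 * q / b) := by ring
    have h9 : 1 + -(2 * q / b) = 1 - 2 * q / b := by ring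
    rw [h8, h9] at h2
    linarith

end Pool.Agent.Y220.HE.PAR
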